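import Pool.Agent.Helper14.MR.Defs

/-! R12: the key lemma, from R1, R9 and R11 (taken as hypotheses). -/

set_option autoImplicit false

namespace Pool.Agent.Helper51.MR

open Classical Pool.Agent.Helper14.MR

theorem univ4 : ∀ o u v w : Fin 4, o ≠ u → o ≠ v → o ≠ w → u ≠ v → u ≠ w → v ≠ w →
    (Finset.univ : Finset (Fin 4)) = {o, u, v, w} := by decide

theorem all4 {o u v w : Fin 4} (h : Dist o u v w) (a : Fin 4) : a = o ∨ a = u ∨ a = v ∨ a = w := by
  have := Finset.mem_univ a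
  rw [univ4 o u v w h.ou h.ov h.ow h.uv h.uw h.vw] at this
  simpa using this

theorem sum4 {n : ℕ} {o u v w : Fin 4} (h : Dist o u v w) (x : Pt n) :
    x.1 o + x.1 u + x.1 v + x.1 w = n := by
  have h1 : ∑ a : Fin 4, x.1 a = n := by
    rw [Fin.sum_univ_four]; exact x.2.sum
  rw [univ4 o u v w h.ou h.ov h.ow h.uv h.uw h.vw] at h1
  rw [Finset.sum_insert (by simp [h.ou, h.ov, h.ow]), Finset.sum_insert (by simp [h.uv, h.uw]),
    Finset.sum_insert (by simp [h.vw]), Finset.sum_singleton] at h1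
  omega

theorem ext4 {n : ℕ} {o u v w : Fin 4} (h : Dist o u v w) (x y : Pt n)
    (h1 : x.1 o = y.1 o) (h2 : x.1 u = y.1 u) (h3 : x.1 v = y.1 v) (h4 : x.1 w = y.1 w) :
    x = y := by
  apply Subtype.ext
  funext a
  rcases all4 h a with rfl | rfl | rfl | rfl <;> assumption

/-- the third index -/
theorem third : ∀ i j : Fin 3, i ≠ j → ∃ k : Fin 3, k ≠ i ∧ k ≠ j := by decide

theorem dist_of : ∀ i j k : Fin 3, i ≠ j → k ≠ i → k ≠ j →
    k.succ ≠ 0 ∧ k.succ ≠ i.succ ∧ k.succ ≠ j.succ ∧ (0 : Fin 4) ≠ i.succ ∧ (0 : Fin 4) ≠ j.succ ∧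
      i.succ ≠ j.succ := by decide

/-- on an interior point of the edge `u v`, a neighbour stays on the edge `u v` -/
theorem adj_edge {n : ℕ} {o u v w : Fin 4} (h : Dist o u v w) (x y : Pt n) (hxy : Adj x y)
    (h1 : x.1 u + x.1 v = n) (hu : 0 < x.1 u) (hv : 0 < x.1 v) :
    y.1 u + y.1 v = n ∧ (y.1 v = x.1 v + 1 ∨ x.1 v = y.1 v + 1) := by
  obtain ⟨a, b, hab, ha, hb, hc⟩ := hxy
  have sx := sum4 h x
  have sy := sum4 h y
  have ho := h.ou
  have hov := h.ov
  have how := h.ow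
  have huv := h.uv
  have huw := h.uw
  have hvw := h.vw
  have cu : u = a ∨ u = b := by
    by_contra hne
    push Not at hne
    have := (hc u hne.1 hne.2).1
    omega
  have cv : v = a ∨ v = b := by
    by_contra hne
    push Not at hne
    have := (hc v hne.1 hne.2).1
    omega
  rcases cu with rfl | rfl <;> rcases cv with rfl | rfl
  · exact absurd rfl huv
  · refine ⟨by omega, ?_⟩
    omega
  · refine ⟨by omega, ?_⟩
    omega
  · exact absurd rfl huv

/-- a connected set containing the vertex `0` and avoiding the other vertices stays off the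
opposite triangle -/
theorem pos_of_avoid {n : ℕ} (hn : 1 ≤ n) (U : Set (Pt n)) (hU : Conn Adj U)
    (h0 : ∃ x ∈ U, x.1 0 = n) (hav : ∀ i : Fin 3, ∀ x ∈ U, x.1 i.succ ≠ n) :
    ∀ x ∈ U, 0 < x.1 0 := by
  have := hU {x | 0 < x.1 0} (by
    obtain ⟨x, hx, hx0⟩ := h0
    exact ⟨x, hx, by simp only [Set.mem_setOf_eq]; omega⟩) (by
    intro x hx hxW y hy hxy
    simp only [Set.mem_setOf_eq] at hxW ⊢
    by_contra hy0
    have hy0' : y.1 0 = 0 := by omega
    obtain ⟨a, b, hab, ha, hb, hc⟩ := hxy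
    have c0 : (0 : Fin 4) = a ∨ (0 : Fin 4) = b := by
      by_contra hne
      push Not at hne
      have := (hc 0 hne.1 hne.2).1
      omega
    rcases c0 with rfl | rfl
    · -- the unit moves from 0 to b
      obtain ⟨i, hi⟩ := Fin.exists_succ_eq.mpr (Ne.symm hab)
      have hsum := y.2.sum
      have hz : ∀ c : Fin 4, c ≠ b → y.1 c = 0 := by
        intro c hcb
        by_cases hc0 : c = 0
        · rw [hc0]; exact hy0'
        · exact (hc c hc0 hcb).2
      have hbn : y.1 b = n := by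
        have h1 : ∑ c : Fin 4, y.1 c = n := by
          rw [Fin.sum_univ_four]; exact hsum
        rw [Finset.sum_eq_single b (fun c _ hcb => hz c hcb) (by simp)] at h1
        exact h1
      rw [← hi] at hbn
      exact hav i y hy hbn
    · omega)
  exact this

/-- the initial segment on the edge `0 v` -/
theorem init_seg {n : ℕ} {o v w : Fin 4} (h : Dist o 0 v w) (U : Set (Pt n)) (hU : Conn Adj U)
    (h0 : ∃ x ∈ U, x.1 0 = n) (hpos : ∀ x ∈ U, 0 < x.1 0) (x : Pt n) (hx : x ∈ U)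
    (hx1 : x.1 0 + x.1 v = n) :
    ∀ x' : Pt n, x'.1 0 + x'.1 v = n → x'.1 v ≤ x.1 v → x' ∈ U := by
  intro x' hx' hle
  by_contra hnot
  have sx := sum4 h x
  have sx' := sum4 h x'
  have key : ∀ y : Pt n, y ∈ U → y.1 0 + y.1 v = n → y.1 v ≠ x'.1 v := by
    intro y hy hy1 heq
    have sy := sum4 h y
    apply hnot
    have : x' = y := ext4 h x' y (by omega) (by omega) (by omega) (by omega)
    rw [this]; exact hy
  have hlt : x'.1 v < x.1 v := lt_of_le_of_ne hle (Ne.symm (key x hx hx1))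
  have hsub := hU {y | y.1 0 + y.1 v = n ∧ x'.1 v < y.1 v} ⟨x, hx, hx1, hlt⟩ (by
    intro y hy hyW y' hy' hadj
    obtain ⟨hyW1, hyW2⟩ := hyW
    obtain ⟨e1, e2⟩ := adj_edge h y y' hadj hyW1 (hpos y hy) (by omega)
    refine ⟨e1, ?_⟩
    have := key y' hy' e1
    omega)
  obtain ⟨p, hp, hp0⟩ := h0
  obtain ⟨e1, e2⟩ := hsub hp
  omega

/-- R12 from R1, R9 and R11 -/
theorem R12_of {A : Type} {n : ℕ}
    (R1 : ∀ (X G : Finset A) (q : ℕ) (s : Fin 3 → A → ℕ), G ⊆ X →
      (X \ G).card ≤ 3 * q → 15 * q + 2 ≤ X.card →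
      ∃ a ∈ G, ∃ i j : Fin 3, i ≠ j ∧
        q + 1 ≤ (X.filter (fun y => y ≠ a ∧ s i a ≤ s i y ∧ s j a ≤ s j y)).card)
    (R9 : ∀ (o u v w : Fin 4), Dist o u v w →
      ∀ (par : A → Finset (Set (Pt n))) (F X : Finset A) (q : ℕ), Setup par F X q →
      Success par F X q ∨
      ∃ (S : Finset A) (f : A → Set (Pt n)) (z : ℕ), Greedy par o u F X S f z ∧
        Done par o u F X S z ∧
        (X.filter (fun x => x ∈ S ∨ ∃ Q ∈ par x, (∃ y ∈ Q, y.1 u = n) ∧
          ∃ y ∈ Q, y.1 o = n ∨ y ∈ Reg o u z)).card ≤ q)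
    (R11 : ∀ (o u v w : Fin 4), Dist o u v w →
      ∀ (par : A → Finset (Set (Pt n))) (F X : Finset A) (q : ℕ), Setup par F X q →
      ∀ (S : Finset A) (f : A → Set (Pt n)) (z : ℕ), Greedy par o u F X S f z →
      Done par o u F X S z → (S ∩ X).card ≤ q →
      ∀ (a : A), a ∈ X → a ∉ S → ∀ (U : Set (Pt n)), U ∈ par a →
      (∀ x ∈ U, 0 < x.1 u) → (∀ x ∈ U, x.1 o < n) → (∀ x ∈ U, x ∉ Reg o u z) →
      (∃ x ∈ U, x.1 u = n) →
      ∀ (Y : Finset A), Y ⊆ X → a ∉ Y → q + 1 ≤ Y.card →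
      (∀ y ∈ Y, ∃ V ∈ par y, ∀ x ∈ U, x.1 o = 0 → x ∈ V) →
      Success par F X q)
    (hn : 1 ≤ n) (par : A → Finset (Set (Pt n))) (F X : Finset A)
    (q : ℕ) (hs : Setup par F X q) (hX : 15 * q + 2 ≤ X.card) : Success par F X q := by
  by_contra hno
  -- the vertex 0
  obtain ⟨v0, hv0⟩ : ∃ v0 : Pt n, v0.1 0 = n := by
    refine ⟨⟨fun a => if a = 0 then n else 0, ?_, ?_⟩, ?_⟩
    · simp
    · intro a b c hab hac hbc
      by_cases ha : a = 0
      · right; left
        have hb : b ≠ 0 := fun hb => hab (ha.trans hb.symm)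
        simp [hb]
      · left; simp [ha]
    · simp
  -- greedy on the three edges at the vertex 0
  have h9 : ∀ i : Fin 3, ∃ (S : Finset A) (f : A → Set (Pt n)) (z : ℕ),
      Greedy par i.succ 0 F X S f z ∧ Done par i.succ 0 F X S z ∧
        (X.filter (fun x => x ∈ S ∨ ∃ Q ∈ par x, (∃ y ∈ Q, y.1 0 = n) ∧
          ∃ y ∈ Q, y.1 i.succ = n ∨ y ∈ Reg i.succ 0 z)).card ≤ q := by
    intro i
    obtain ⟨v, hvi⟩ : ∃ v : Fin 3, v ≠ i := by
      fin_cases i
      · exact ⟨1, by decide⟩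
      · exact ⟨0, by decide⟩
      · exact ⟨0, by decide⟩
    obtain ⟨w, hwi, hwv⟩ := third i v hvi.symm
    obtain ⟨d1, d2, d3, d4, d5, d6⟩ := dist_of v w i hwv.symm hvi.symm hwi.symm
    rcases R9 i.succ 0 v.succ w.succ ⟨d1, d2, d3, d4, d5, d6⟩ par F X q hs with hS | hS
    · exact absurd hS hno
    · exact hS
  choose S f z hG hD hB using h9
  -- the part containing the vertex 0
  have hV : ∀ y : A, ∃ V ∈ par y, v0 ∈ V := fun y => (hs.cut y).cover v0
  choose V hVpar hV0 using hV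
  let bad : Fin 3 → A → Prop := fun i x => x ∈ S i ∨ ∃ Q ∈ par x, (∃ y ∈ Q, y.1 0 = n) ∧
          ∃ y ∈ Q, y.1 i.succ = n ∨ y ∈ Reg i.succ 0 (z i)
  let G : Finset A := X.filter (fun x => ∀ i, ¬ bad i x)
  have hGX : G ⊆ X := Finset.filter_subset _ _
  have hXG : (X \ G).card ≤ 3 * q := by
    have hsub : X \ G ⊆ (Finset.univ : Finset (Fin 3)).biUnion
        (fun i => X.filter (fun x => bad i x)) := by
      intro x hx
      rw [Finset.mem_sdiff] at hx
      obtain ⟨hxX, hxG⟩ := hx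
      have : ∃ i, bad i x := by
        by_contra hne
        push Not at hne
        exact hxG (Finset.mem_filter.mpr ⟨hxX, hne⟩)
      obtain ⟨i, hi⟩ := this
      exact Finset.mem_biUnion.mpr ⟨i, Finset.mem_univ i, Finset.mem_filter.mpr ⟨hxX, hi⟩⟩
    calc (X \ G).card ≤ _ := Finset.card_le_card hsub
      _ ≤ ∑ i : Fin 3, (X.filter (fun x => bad i x)).card := Finset.card_biUnion_le
      _ ≤ ∑ _i : Fin 3, q := Finset.sum_le_sum (fun i _ => hB i)
      _ = 3 * q := by simp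
  let s : Fin 3 → A → ℕ := fun i y => Nat.findGreatest
    (fun t => ∀ x : Pt n, x.1 0 + x.1 i.succ = n → x.1 i.succ ≤ t → x ∈ V y) n
  obtain ⟨a, haG, i, j, hij, hcard⟩ := R1 X G q s hGX hXG hX
  obtain ⟨k, hki, hkj⟩ := third i j hij
  obtain ⟨d1, d2, d3, d4, d5, d6⟩ := dist_of i j k hij hki hkj
  have hdist : Dist k.succ 0 i.succ j.succ := ⟨d1, d2, d3, d4, d5, d6⟩
  obtain ⟨haX, hgood⟩ := Finset.mem_filter.mp haG
  have hUconn : Conn Adj (V a) := (hs.cut a).conn _ (hVpar a)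
  have hU0 : ∃ x ∈ V a, x.1 0 = n := ⟨v0, hV0 a, hv0⟩
  have havoid : ∀ i : Fin 3, ∀ x ∈ V a, x.1 i.succ ≠ n := by
    intro i x hx hxn
    exact hgood i (Or.inr ⟨V a, hVpar a, hU0, x, hx, Or.inl hxn⟩)
  have hpos : ∀ x ∈ V a, 0 < x.1 0 := pos_of_avoid hn (V a) hUconn hU0 havoid
  -- membership through the greatest initial segment
  have hs0 : ∀ (l : Fin 3) (y : A), ∀ x : Pt n, x.1 0 + x.1 l.succ = n → x.1 l.succ ≤ 0 →
      x ∈ V y := by
    intro l y x hx hx0
    have hsx := x.2.sum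
    have hsv := v0.2.sum
    have : x = v0 := by
      have hx0' : x.1 0 = n := by omega
      apply Subtype.ext
      funext c
      have e1 : ∀ p : Pt n, p.1 0 = n → ∀ c : Fin 4, c ≠ 0 → p.1 c = 0 := by
        intro p hp c hc
        have hsp := p.2.sum
        fin_cases c
        · exact absurd rfl hc
        · simp only [Fin.reduceFinMk]
          change p.1 1 = 0
          omega
        · change p.1 2 = 0
          omega
        · change p.1 3 = 0
          omega
      by_cases hc : c = 0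
      · rw [hc, hx0', hv0]
      · rw [e1 x hx0' c hc, e1 v0 hv0 c hc]
    rw [this]; exact hV0 y
  have hspec : ∀ (l : Fin 3) (y : A), ∀ x : Pt n, x.1 0 + x.1 l.succ = n →
      x.1 l.succ ≤ s l y → x ∈ V y := by
    intro l y
    exact Nat.findGreatest_spec (P := fun t => ∀ x : Pt n, x.1 0 + x.1 l.succ = n →
      x.1 l.succ ≤ t → x ∈ V y) (Nat.zero_le n) (hs0 l y)
  have hle : ∀ (l : Fin 3) (o w : Fin 4), Dist o 0 l.succ w → ∀ x ∈ V a,
      x.1 0 + x.1 l.succ = n → x.1 l.succ ≤ s l a := by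
    intro l o w hd x hx hx1
    apply Nat.le_findGreatest (by omega)
    exact init_seg hd (V a) hUconn hU0 hpos x hx hx1
  apply hno
  refine R11 k.succ 0 i.succ j.succ hdist par F X q hs (S k) (f k) (z k) (hG k) (hD k) ?_ a haX ?_
    (V a) (hVpar a) hpos ?_ ?_ hU0 _ (Finset.filter_subset _ _) ?_ hcard ?_
  · refine le_trans (Finset.card_le_card ?_) (hB k)
    intro x hx
    obtain ⟨hx1, hx2⟩ := Finset.mem_inter.mp hx
    exact Finset.mem_filter.mpr ⟨hx2, Or.inl hx1⟩
  · intro haS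
    exact hgood k (Or.inl haS)
  · intro x hx
    have h1 := havoid k x hx
    have h2 := sum4 hdist x
    omega
  · intro x hx hxR
    exact hgood k (Or.inr ⟨V a, hVpar a, hU0, x, hx, Or.inr hxR⟩)
  · simp
  · intro y hy
    obtain ⟨hyX, hya, hyi, hyj⟩ := Finset.mem_filter.mp hy
    refine ⟨V y, hVpar y, ?_⟩
    intro x hx hxk
    have hsx := sum4 hdist x
    have hx0 := hpos x hx
    rcases x.2.supp 0 i.succ j.succ hdist.uv hdist.uw hdist.vw with h1 | h1 | h1
    · omega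
    · -- on the edge 0 j
      have e1 : x.1 0 + x.1 j.succ = n := by omega
      exact hspec j y x e1 (le_trans (hle j k.succ i.succ
        ⟨hdist.ou, hdist.ow, hdist.ov, hdist.uw, hdist.uv, hdist.vw.symm⟩ x hx e1) hyj)
    · have e1 : x.1 0 + x.1 i.succ = n := by omega
      exact hspec i y x e1 (le_trans (hle i k.succ j.succ hdist x hx e1) hyi)

end Pool.Agent.Helper51.MR
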